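import Pool.Agent.Helper99.ES.Z1
import Pool.Agent.Helper60.ES.Z0r

/-!
# ES, block Z1r: the sum over the zeros in the cells, with a rate
-/

set_option autoImplicit false
open MeasureTheory Set Filter Topology
open Pool.Agent.Helper57.Zeta Pool.Agent.Helper57.PC Pool.Agent.Helper57.LH Pool.Agent.Helper78.SG
open Pool.Agent.Helper4.SH Pool.Agent.Helper69.PP Pool.Agent.Helper22.SI
open Pool.Agent.Helper69.SM (wt)

namespace Pool.Agent.Helper99.ESR

open Pool.Agent.Helper69 Pool.Agent.Helper69.ES Pool.Agent.Helper99.ES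

/-- the deviation at one height -/
theorem dev_core99 {c : ℝ} (hc : 0 < c) (f : TF) {e D K x : ℝ} (hD0 : 0 < D) (hDK : 4 * D ≤ K) (hx : 1 < x)
    (h2 : ∀ t ∈ Icc (x + x / 4) (x + 3 * x / 4),
      |Xs f.h 2 x t - ∑ ρ ∈ Pool.Agent.Helper69.SM.ZJ x x, mx ρ * kzs f.h 2 x t ρ| ≤ e)
    (h3 : ∀ t ∈ Icc x (2 * x), |Xs f.h 2 x t - (f.h 0 - pss f.h 2 x t)| ≤ e)
    {J : Finset ℕ} (hJ : InW K x J) (hcl : Clear c K x J) :
    ∃ B : Set ℝ, MeasurableSet B ∧
      volume B ≤ ENNReal.ofReal (D / K * x) + volume {t : ℝ | e < Far f.h (D / 2) x t} ∧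
      ∀ t ∈ Icc (x + x / 4) (x + 3 * x / 4), t ∉ B →
        |Zc f.h K D x J t - (St K 0 x J).indicator (fun t => f.h 0 - pss f.h 2 x t) t| ≤ 3 * e := by
  classical
  have hK0 : 0 < K := by linarith
  have hx0 : 0 < x := by linarith
  have hL : 0 < Real.log x := Real.log_pos hx
  have hDL : 0 < D / Real.log x := div_pos hD0 hL
  obtain ⟨E, hE⟩ : ∃ E : Set ℝ, E = (St K 0 x J \ St K (2 * D) x J) ∪ {t : ℝ | e < Far f.h (D / 2) x t} := ⟨_, rfl⟩
  refine ⟨toMeasurable volume E, measurableSet_toMeasurable _ _, ?_, fun t ht htE => ?_⟩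
  · rw [measure_toMeasurable, hE]
    refine (measure_union_le _ _).trans (add_le_add ?_ le_rfl)
    have hsub : St K (2 * D) x J ⊆ St K 0 x J := by
      unfold St
      refine iUnion₂_mono fun j _ => Icc_subset_Icc ?_ ?_
      · rw [zero_div, add_zero]
        have : 0 ≤ 2 * D / Real.log x := by positivity
        linarith
      · rw [zero_div, sub_zero]
        have : 0 ≤ 2 * D / Real.log x := by positivity
        linarith
    have hv0 := St_vol (K := K) (D := 0) hx le_rfl (by linarith) J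
    have hv1 := St_vol (K := K) (D := 2 * D) hx (by linarith) (by linarith) J
    rw [measure_sdiff hsub (St_meas K (2 * D) x J).nullMeasurableSet (by rw [hv1]; exact ENNReal.ofReal_ne_top),
      hv0, hv1, ← ENNReal.ofReal_sub _ (mul_nonneg (Nat.cast_nonneg _) (div_nonneg (by linarith) hL.le))]
    refine ENNReal.ofReal_le_ofReal ?_
    have h5 := InW_card hx hK0 hJ
    have h6 : (J.card : ℝ) * ((K - 2 * 0) / Real.log x) - (J.card : ℝ) * ((K - 2 * (2 * D)) / Real.log x) =
        (J.card : ℝ) * (K / Real.log x) * (4 * (D / K)) := by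
      field_simp
      ring
    rw [h6]
    calc (J.card : ℝ) * (K / Real.log x) * (4 * (D / K)) ≤ x / 4 * (4 * (D / K)) :=
          mul_le_mul_of_nonneg_right h5 (by positivity)
      _ = D / K * x := by ring
  · have htE' : t ∉ E := fun h => htE (subset_toMeasurable _ _ h)
    rw [hE, mem_union, not_or] at htE'
    obtain ⟨hA, hB⟩ := htE'
    have hFt : Far f.h (D / 2) x t ≤ e := not_lt.1 hB
    have he0 : 0 ≤ e := (abs_nonneg _).trans (h2 t ht)
    have hZc : Zc f.h K D x J t = ∑ ρ ∈ IS K D x J, mx ρ * kzs f.h 2 x t ρ := by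
      unfold Zc
      exact Finset.sum_congr rfl fun ρ hρ => kzs_eq99 hc f (IS_notclose99 hx hD0.le hcl hρ) t
    have hISsub : IS K D x J ⊆ Pool.Agent.Helper69.SM.ZJ x x := by
      unfold IS
      exact Finset.filter_subset _ _
    by_cases ht0 : t ∈ St K 0 x J
    · rw [indicator_of_mem ht0]
      have ht2 : t ∈ St K (2 * D) x J := by
        by_contra h
        exact hA ⟨ht0, h⟩
      unfold St at ht2
      rw [mem_iUnion₂] at ht2
      obtain ⟨j, hj, h4, h5⟩ := ht2
      have h6 : |∑ ρ ∈ Pool.Agent.Helper69.SM.ZJ x x \ IS K D x J, mx ρ * kzs f.h 2 x t ρ| ≤ Far f.h (D / 2) x t := by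
        refine far_le99 f.h Finset.sdiff_subset fun ρ hρ => ?_
        obtain ⟨h7, h8⟩ := Finset.mem_sdiff.mp hρ
        by_contra hcon
        rw [not_lt] at hcon
        apply h8
        unfold IS
        rw [Finset.mem_filter]
        refine ⟨h7, ?_⟩
        unfold St
        rw [mem_iUnion₂]
        have h9 : |t - (ρ : ℂ).im| ≤ D / Real.log x / 2 := by
          rw [div_div, mul_comm (Real.log x) 2, ← div_div, le_div_iff₀ hL]
          exact hcon
        have h10 := abs_le.mp h9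
        have h11 : 2 * D / Real.log x = 2 * (D / Real.log x) := by ring
        rw [h11] at h4 h5
        exact ⟨j, hj, by linarith [h10.1, h10.2], by linarith [h10.1, h10.2]⟩
      have h7 := Finset.sum_sdiff (f := fun ρ : ZS => mx ρ * kzs f.h 2 x t ρ) hISsub
      have h8 := h2 t ht
      have h9 := h3 t ⟨by linarith [ht.1], by linarith [ht.2]⟩
      rw [hZc]
      have a1 := abs_le.mp (h6.trans hFt)
      have a2 := abs_le.mp h8
      have a3 := abs_le.mp h9
      rw [abs_le]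
      constructor <;> linarith [a1.1, a1.2, a2.1, a2.2, a3.1, a3.2]
    · rw [indicator_of_notMem ht0, sub_zero, hZc]
      refine (far_le99 f.h (D := D / 2) hISsub fun ρ hρ => ?_).trans (by linarith)
      unfold IS at hρ
      rw [Finset.mem_filter] at hρ
      obtain ⟨_, h4⟩ := hρ
      unfold St at h4 ht0
      rw [mem_iUnion₂] at h4 ht0
      obtain ⟨j, hj, h5, h6⟩ := h4
      have h7 : D / Real.log x < |t - (ρ : ℂ).im| := by
        by_contra hcon
        rw [not_lt] at hcon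
        have h8 := abs_le.mp hcon
        apply ht0
        refine ⟨j, hj, ?_, ?_⟩
        · rw [zero_div, add_zero]
          linarith [h8.1, h8.2]
        · rw [zero_div, sub_zero]
          linarith [h8.1, h8.2]
      rw [div_lt_iff₀ hL] at h7
      linarith

/-- Z1r -/
theorem dev_rate {c : ℝ} (hc : 0 < c) (f : TF) : ∃ C κ : ℝ, 0 < C ∧ 0 < κ ∧ ∀ K : ℝ, 1 ≤ K → ∀ᶠ x : ℝ in atTop,
    ∀ J : Finset ℕ, InW K x J → Clear c K x J →
      ∃ B : Set ℝ, MeasurableSet B ∧ volume B ≤ ENNReal.ofReal (C * K ^ (-κ) * x) ∧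
        ∀ t ∈ Icc (x + x / 4) (x + 3 * x / 4), t ∉ B →
          |Zc f.h K (Real.sqrt K) x J t - (St K 0 x J).indicator (fun t => f.h 0 - pss f.h 2 x t) t| ≤ C * K ^ (-κ) := by
  obtain ⟨C₀, κ₀, hC₀, hκ₀, hfar⟩ := Pool.Agent.Helper60.ESR.far_rate f
  obtain ⟨κ, hκ⟩ : ∃ κ : ℝ, κ = min (κ₀ / 4) (1 / 2) := ⟨_, rfl⟩
  have hκ0 : 0 < κ := by rw [hκ]; exact lt_min (by positivity) (by norm_num)
  have hκ1 : κ ≤ κ₀ / 4 := by rw [hκ]; exact min_le_left _ _
  have hκ2 : κ ≤ 1 / 2 := by rw [hκ]; exact min_le_right _ _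
  have h2κ : (0:ℝ) < 2 ^ κ₀ := Real.rpow_pos_of_pos (by norm_num) _
  have h16 : (0:ℝ) < 16 ^ κ := Real.rpow_pos_of_pos (by norm_num) _
  refine ⟨1 + C₀ * 2 ^ κ₀ + 3 + 16 ^ κ, κ, by positivity, hκ0, fun K hK => ?_⟩
  obtain ⟨C, hCdef⟩ : ∃ C : ℝ, C = 1 + C₀ * 2 ^ κ₀ + 3 + 16 ^ κ := ⟨_, rfl⟩
  rw [← hCdef]
  have hK0 : 0 < K := by linarith
  have hKκ : 0 < K ^ (-κ) := Real.rpow_pos_of_pos hK0 _
  have hCm : 0 < C₀ * 2 ^ κ₀ := by positivity
  rcases lt_or_ge K 16 with h16K | h16K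
  · filter_upwards [eventually_gt_atTop 0] with x hx0
    intro J _ _
    refine ⟨Icc x (2 * x), measurableSet_Icc, ?_, fun t ht htB => ?_⟩
    · rw [Real.volume_Icc]
      refine ENNReal.ofReal_le_ofReal ?_
      have h1 : 1 ≤ C * K ^ (-κ) := by
        have h2 : 1 ≤ (16:ℝ) ^ κ * K ^ (-κ) := by
          rw [Real.rpow_neg hK0.le, ← div_eq_mul_inv, one_le_div (Real.rpow_pos_of_pos hK0 _)]
          exact Real.rpow_le_rpow hK0.le h16K.le hκ0.le
        have h3 : (16:ℝ) ^ κ * K ^ (-κ) ≤ C * K ^ (-κ) := by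
          apply mul_le_mul_of_nonneg_right _ hKκ.le
          rw [hCdef]
          linarith
        linarith
      nlinarith
    · exact absurd ⟨by linarith [ht.1], by linarith [ht.2]⟩ htB
  · obtain ⟨s, hs⟩ : ∃ s : ℝ, s = Real.sqrt K := ⟨_, rfl⟩
    have hs2 : s * s = K := by rw [hs]; exact Real.mul_self_sqrt hK0.le
    have hs4 : 4 ≤ s := by
      rw [hs]
      exact Real.le_sqrt_of_sq_le (by linarith)
    rw [← hs]
    obtain ⟨e, he⟩ : ∃ e : ℝ, e = K ^ (-(κ₀ / 4)) := ⟨_, rfl⟩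
    have he0 : 0 < e := by rw [he]; exact Real.rpow_pos_of_pos hK0 _
    have he1 : e ≤ 1 := by
      rw [he]
      exact Real.rpow_le_one_of_one_le_of_nonpos hK (by linarith)
    have heκ : e ≤ K ^ (-κ) := by
      rw [he]
      exact Real.rpow_le_rpow_of_exponent_le hK (by linarith)
    have hsκ : s / K ≤ K ^ (-κ) := by
      have h1 : s / K = K ^ (-(1 / 2) : ℝ) := by
        rw [Real.rpow_neg hK0.le, ← Real.sqrt_eq_rpow, ← hs]
        field_simp
        rw [pow_two, hs2]
      rw [h1]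
      exact Real.rpow_le_rpow_of_exponent_le hK (by linarith)
    have hfe : C₀ * (s / 2) ^ (-κ₀) / e ≤ C₀ * 2 ^ κ₀ * K ^ (-κ) := by
      have h1 : (s / 2) ^ (-κ₀) = 2 ^ κ₀ * (e * e) := by
        rw [Real.div_rpow (by linarith) (by norm_num), he, ← Real.rpow_add hK0, hs, Real.sqrt_eq_rpow,
          ← Real.rpow_mul hK0.le, Real.rpow_neg (by norm_num : (0:ℝ) ≤ 2), div_inv_eq_mul, mul_comm]
        congr 2
        ring
      rw [h1]
      have h2 : C₀ * (2 ^ κ₀ * (e * e)) / e = C₀ * 2 ^ κ₀ * e := by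
        field_simp
      rw [h2]
      exact mul_le_mul_of_nonneg_left heκ (by positivity)
    filter_upwards [hfar (s / 2) (by linarith) e he0 he1, Xs_ZJ99 f he0,
      Pool.Agent.Helper69.SM.main_term_up f (s := 2) (by norm_num) le_rfl he0,
      eventually_gt_atTop 1] with x h1 h2 h3 hx
    intro J hJ hcl
    have hx0 : 0 < x := by linarith
    obtain ⟨B, hB, hBv, hBt⟩ := dev_core99 hc f (D := s) (by linarith) (by nlinarith) hx h2 h3 hJ hcl
    refine ⟨B, hB, ?_, fun t ht htB => (hBt t ht htB).trans ?_⟩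
    · refine hBv.trans ((add_le_add le_rfl h1).trans ?_)
      rw [← ENNReal.ofReal_add (by positivity) (by positivity)]
      refine ENNReal.ofReal_le_ofReal ?_
      have h4 : s / K * x + C₀ * (s / 2) ^ (-κ₀) / e * x ≤ (1 + C₀ * 2 ^ κ₀) * K ^ (-κ) * x := by
        have h5 := mul_le_mul_of_nonneg_right hsκ hx0.le
        have h6 := mul_le_mul_of_nonneg_right hfe hx0.le
        linarith
      refine h4.trans ?_
      refine mul_le_mul_of_nonneg_right (mul_le_mul_of_nonneg_right ?_ hKκ.le) hx0.le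
      rw [hCdef]
      linarith
    · have h4 : 3 * e ≤ 3 * K ^ (-κ) := by linarith
      refine h4.trans (mul_le_mul_of_nonneg_right ?_ hKκ.le)
      rw [hCdef]
      linarith

end Pool.Agent.Helper99.ESR
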