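import Pool.Agent.Helper69.ES.Easy
import Pool.Agent.Helper60.ES.Z0
import Pool.Agent.Helper22.SI.Z1

/-!
# ES, block Z1: the sum over the zeros in the cells
-/

set_option autoImplicit false
open MeasureTheory Set Filter Topology
open Pool.Agent.Helper57.Zeta Pool.Agent.Helper57.PC Pool.Agent.Helper57.LH Pool.Agent.Helper78.SG
open Pool.Agent.Helper4.SH Pool.Agent.Helper69.PP Pool.Agent.Helper22.SI
open Pool.Agent.Helper69.SM (wt)
open Pool.Agent.Helper69.ES

namespace Pool.Agent.Helper99.ES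

/-- the zeros in the clear cells are not close -/
theorem IS_notclose99 {c K D x : ℝ} (hx : 1 < x) (hD : 0 ≤ D) {J : Finset ℕ} (hcl : Clear c K x J) {ρ : ZS}
    (hρ : ρ ∈ IS K D x J) : ¬ Pool.Agent.Helper69.SM.CloseC c x ρ := by
  classical
  have hL : 0 < Real.log x := Real.log_pos hx
  have hD0 : 0 ≤ D / Real.log x := div_nonneg hD hL.le
  unfold IS at hρ
  rw [Finset.mem_filter] at hρ
  obtain ⟨_, h2⟩ := hρ
  unfold St at h2
  rw [mem_iUnion₂] at h2
  obtain ⟨j, hj, h3, h4⟩ := h2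
  exact hcl j hj ρ (by linarith) (by linarith)

/-- the absolute sum over zeros that are not close -/
theorem abs_bdd99 {c : ℝ} (hc : 0 < c) (f : TF) : ∃ C : ℝ, 0 < C ∧ ∀ x : ℝ, 1 < x → ∀ A : Finset ZS,
    (∀ ρ ∈ A, ¬ Pool.Agent.Helper69.SM.CloseC c x ρ) → ∀ t : ℝ, ∑ ρ ∈ A, |krs f.h 2 x (t - (ρ : ℂ).im)| ≤ C := by
  obtain ⟨C, hC, hk⟩ := ker_decay f 2
  have hg : 0 ≤ ∑' k : ℤ, Pool.Agent.Helper4.SH.HCaux.gk k := tsum_nonneg Pool.Agent.Helper4.SH.HCaux.gk_nonneg
  have hpi := Real.pi_pos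
  obtain ⟨w, hw'⟩ : ∃ w : ℝ, w = 2 * Real.pi * c := ⟨_, rfl⟩
  have hw0 : 0 < w := by rw [hw']; positivity
  refine ⟨2 * C * ((1 + 1 / w) ^ 2 * ∑' k : ℤ, Pool.Agent.Helper4.SH.HCaux.gk k) + 1, by positivity, ?_⟩
  intro T hT A hA t
  have hL : 0 < Real.log T := Real.log_pos hT
  have h1 : ∀ ρ ∈ A, |krs f.h 2 T (t - (ρ : ℂ).im)| ≤
      2 * C * ((1 + 1 / w) ^ 2 * (1 / (1 + |Real.log T * (t - (ρ : ℂ).im) / w|) ^ 2)) := by
    intro ρ _
    unfold krs
    have h2 := hk 0 (2 * Real.log T * (t - (ρ : ℂ).im))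
    rw [abs_zero, Real.exp_zero, mul_one] at h2
    rw [abs_mul, abs_of_pos (by norm_num : (0:ℝ) < 2)]
    have h3 : |Real.log T * (t - (ρ : ℂ).im)| ≤ |2 * Real.log T * (t - (ρ : ℂ).im)| := by
      rw [mul_assoc, abs_mul 2, abs_of_pos (by norm_num : (0:ℝ) < 2)]
      exact le_mul_of_one_le_left (abs_nonneg _) (by norm_num)
    set x := |Real.log T * (t - (ρ : ℂ).im)| with hx
    have hx0 : 0 ≤ x := abs_nonneg _
    have h4 : C / (1 + |2 * Real.log T * (t - (ρ : ℂ).im)|) ^ 2 ≤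
        C * ((1 + 1 / w) ^ 2 * (1 / (1 + |Real.log T * (t - (ρ : ℂ).im) / w|) ^ 2)) := by
      rw [abs_div, abs_of_pos hw0, ← hx, ← mul_assoc, mul_one_div]
      rw [div_le_div_iff₀ (by positivity) (by positivity)]
      have h5 : (1 + x / w) ≤ (1 + 1 / w) * (1 + |2 * Real.log T * (t - (ρ : ℂ).im)|) := by
        have h6 : (1 + 1 / w) * (1 + x) ≤ (1 + 1 / w) * (1 + |2 * Real.log T * (t - (ρ : ℂ).im)|) := by
          apply mul_le_mul_of_nonneg_left _ (by positivity)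
          linarith
        refine le_trans ?_ h6
        have h7 : (1 + 1 / w) * (1 + x) = 1 + x / w + (1 / w + x) := by field_simp; ring
        rw [h7]
        have : 0 ≤ 1 / w + x := by positivity
        linarith
      have h6 : (1 + x / w) ^ 2 ≤ ((1 + 1 / w) * (1 + |2 * Real.log T * (t - (ρ : ℂ).im)|)) ^ 2 :=
        pow_le_pow_left₀ (by positivity) h5 2
      calc C * (1 + x / w) ^ 2 ≤ C * ((1 + 1 / w) * (1 + |2 * Real.log T * (t - (ρ : ℂ).im)|)) ^ 2 :=
            mul_le_mul_of_nonneg_left h6 hC.le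
        _ = C * (1 + 1 / w) ^ 2 * (1 + |2 * Real.log T * (t - (ρ : ℂ).im)|) ^ 2 := by ring
    calc 2 * |ker f.h 0 (2 * Real.log T * (t - (ρ : ℂ).im))|
        ≤ 2 * (C * ((1 + 1 / w) ^ 2 * (1 / (1 + |Real.log T * (t - (ρ : ℂ).im) / w|) ^ 2))) :=
          mul_le_mul_of_nonneg_left (h2.trans h4) (by norm_num)
      _ = _ := by ring
  have h5 : ∑ ρ ∈ A, 1 / (1 + |Real.log T * (t - (ρ : ℂ).im) / w|) ^ 2 ≤ ∑' k : ℤ, Pool.Agent.Helper4.SH.HCaux.gk k := by
    refine Pool.Agent.Helper4.SH.HCaux.sum_sep A (fun ρ => Real.log T * (t - (ρ : ℂ).im) / w) ?_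
    intro ρ hρ ρ' _ hne
    obtain ⟨_, _, h3⟩ := Pool.Agent.Helper69.PP.iso_props_c hc (hA ρ hρ)
    have h6 := h3 ρ' hne
    have h7 : Real.log T * (t - (ρ : ℂ).im) / w - Real.log T * (t - (ρ' : ℂ).im) / w =
        Real.log T * ((ρ' : ℂ).im - (ρ : ℂ).im) / w := by ring
    show 1 < |Real.log T * (t - (ρ : ℂ).im) / w - Real.log T * (t - (ρ' : ℂ).im) / w|
    rw [h7, abs_div, abs_mul, abs_of_pos hL, abs_of_pos hw0, abs_sub_comm, one_lt_div hw0, hw']
    rw [lt_div_iff₀ (by positivity)] at h6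
    linarith
  calc ∑ ρ ∈ A, |krs f.h 2 T (t - (ρ : ℂ).im)|
      ≤ ∑ ρ ∈ A, 2 * C * ((1 + 1 / w) ^ 2 * (1 / (1 + |Real.log T * (t - (ρ : ℂ).im) / w|) ^ 2)) :=
        Finset.sum_le_sum h1
    _ = 2 * C * ((1 + 1 / w) ^ 2 * ∑ ρ ∈ A, 1 / (1 + |Real.log T * (t - (ρ : ℂ).im) / w|) ^ 2) := by
        rw [Finset.mul_sum, Finset.mul_sum]
    _ ≤ 2 * C * ((1 + 1 / w) ^ 2 * ∑' k : ℤ, Pool.Agent.Helper4.SH.HCaux.gk k) := by
        apply mul_le_mul_of_nonneg_left _ (by positivity)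
        exact mul_le_mul_of_nonneg_left h5 (by positivity)
    _ ≤ _ := by linarith

/-- Z1 -/
theorem Zc_bdd {c : ℝ} (hc : 0 < c) (f : TF) : ∃ C : ℝ, 0 < C ∧ ∀ x : ℝ, 1 < x → ∀ K D : ℝ, 0 ≤ D → ∀ J : Finset ℕ,
    Clear c K x J → ∀ t : ℝ, |Zc f.h K D x J t| ≤ C := by
  obtain ⟨C, hC, h⟩ := abs_bdd99 hc f
  refine ⟨C, hC, fun x hx K D hD J hcl t => ?_⟩
  unfold Zc
  exact (Finset.abs_sum_le_sum_abs _ _).trans (h x hx _ (fun ρ hρ => IS_notclose99 hx hD hcl hρ) t)

/-- at a zero that is not close, the two kernels agree -/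
theorem kzs_eq99 {c : ℝ} (hc : 0 < c) (f : TF) {x : ℝ} {ρ : ZS} (h : ¬ Pool.Agent.Helper69.SM.CloseC c x ρ) (t : ℝ) :
    krs f.h 2 x (t - (ρ : ℂ).im) = mx ρ * kzs f.h 2 x t ρ := by
  obtain ⟨h4, h5, _⟩ := Pool.Agent.Helper69.PP.iso_props_c hc h
  rw [h5, one_mul]
  unfold kzs krs kz
  rw [h4, sub_self, mul_zero]

/-- the zeros outside of the window are negligible in the middle of it -/
theorem Xs_ZJ99 (f : TF) {ε : ℝ} (hε : 0 < ε) : ∀ᶠ x : ℝ in atTop, ∀ t ∈ Icc (x + x / 4) (x + 3 * x / 4),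
    |Xs f.h 2 x t - ∑ ρ ∈ Pool.Agent.Helper69.SM.ZJ x x, mx ρ * kzs f.h 2 x t ρ| ≤ ε := by
  classical
  have h0 := Pool.Agent.Helper69.SM.tail_loc f (s := 2) (b := 1) (by norm_num) le_rfl one_pos le_rfl hε
  simp only [Real.rpow_one] at h0
  filter_upwards [h0, eventually_gt_atTop 1] with x hT hT1
  intro t ht
  have htail := hT t ht
  have hsl := explicit_s f (s := 2) (by norm_num) hT1 t
  have hlim : Tendsto (fun F : Finset ZS => |(∑ ρ ∈ F, mx ρ * kzs f.h 2 x t ρ) -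
      ∑ ρ ∈ Pool.Agent.Helper69.SM.ZJ x x, mx ρ * kzs f.h 2 x t ρ|)
      atTop (𝓝 |Xs f.h 2 x t - ∑ ρ ∈ Pool.Agent.Helper69.SM.ZJ x x, mx ρ * kzs f.h 2 x t ρ|) :=
    (hsl.sub_const _).abs
  refine le_of_tendsto hlim ?_
  filter_upwards [eventually_ge_atTop (Pool.Agent.Helper69.SM.ZJ x x)] with F hF
  rw [← Finset.sum_sdiff hF, add_sub_cancel_right]
  calc |∑ ρ ∈ F \ Pool.Agent.Helper69.SM.ZJ x x, mx ρ * kzs f.h 2 x t ρ| ≤
        ∑ ρ ∈ F \ Pool.Agent.Helper69.SM.ZJ x x, |mx ρ * kzs f.h 2 x t ρ| := Finset.abs_sum_le_sum_abs _ _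
    _ = ∑ ρ ∈ F \ Pool.Agent.Helper69.SM.ZJ x x, mx ρ * |kzs f.h 2 x t ρ| := by
        refine Finset.sum_congr rfl fun ρ _ => ?_
        rw [abs_mul, abs_of_nonneg (mx_nonneg _)]
    _ ≤ ε := htail _ (fun ρ hρ => (Finset.mem_sdiff.mp hρ).2)

open Classical in
/-- a part of the window that is far from `t` -/
theorem far_le99 (h : ℝ → ℝ) {D x t : ℝ} {A : Finset ZS} (hA : A ⊆ Pool.Agent.Helper69.SM.ZJ x x)
    (hd : ∀ ρ ∈ A, D < |t - (ρ : ℂ).im| * Real.log x) :
    |∑ ρ ∈ A, mx ρ * kzs h 2 x t ρ| ≤ Far h D x t := by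
  unfold Far
  calc |∑ ρ ∈ A, mx ρ * kzs h 2 x t ρ| ≤ ∑ ρ ∈ A, |mx ρ * kzs h 2 x t ρ| := Finset.abs_sum_le_sum_abs _ _
    _ = ∑ ρ ∈ A, (if D < |t - (ρ : ℂ).im| * Real.log x then mx ρ * |kzs h 2 x t ρ| else 0) := by
        refine Finset.sum_congr rfl fun ρ hρ => ?_
        rw [if_pos (hd ρ hρ), abs_mul, abs_of_nonneg (mx_nonneg _)]
    _ ≤ _ := by
        refine Finset.sum_le_sum_of_subset_of_nonneg hA fun ρ _ _ => ?_
        split_ifs
        · exact mul_nonneg (mx_nonneg _) (abs_nonneg _)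
        · exact le_rfl

/-- Z1: `t` at distance `≥ 2D/log x` from the ends of the cells -/
theorem dev_cells {c : ℝ} (hc : 0 < c) (f : TF) {η ε : ℝ} (hη : 0 < η) (hε : 0 < ε) : ∃ D0 : ℝ, 0 < D0 ∧ ∀ D : ℝ, D0 ≤ D →
    ∃ K0 : ℝ, ∀ K : ℝ, K0 ≤ K → ∀ᶠ x : ℝ in atTop, ∀ J : Finset ℕ, InW K x J → Clear c K x J →
      ∃ B : Set ℝ, MeasurableSet B ∧ volume B ≤ ENNReal.ofReal (η * x) ∧
        ∀ t ∈ Icc (x + x / 4) (x + 3 * x / 4), t ∉ B →
          |Zc f.h K D x J t - (St K 0 x J).indicator (fun t => f.h 0 - pss f.h 2 x t) t| ≤ ε := by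
  classical
  obtain ⟨D1, hD1, hfar⟩ := Pool.Agent.Helper60.ES.far_small f (show 0 < ε / 4 by positivity) (show 0 < η / 2 by positivity)
  refine ⟨2 * D1, by positivity, fun D hD => ⟨4 * D + 2 * D / η + 1, fun K hK => ?_⟩⟩
  have hD0 : 0 < D := by linarith
  have hDη : 0 < 2 * D / η := by positivity
  have hK0 : 0 < K := by linarith
  filter_upwards [hfar (D / 2) (by linarith), Xs_ZJ99 f (show 0 < ε / 4 by positivity),
    Pool.Agent.Helper69.SM.main_term_up f (s := 2) (by norm_num) le_rfl (show 0 < ε / 4 by positivity),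
    eventually_gt_atTop 1] with x h1 h2 h3 hx
  intro J hJ hcl
  have hx0 : 0 < x := by linarith
  have hL : 0 < Real.log x := Real.log_pos hx
  have hDL : 0 < D / Real.log x := div_pos hD0 hL
  obtain ⟨E, hE⟩ : ∃ E : Set ℝ, E = (St K 0 x J \ St K (2 * D) x J) ∪ {t : ℝ | ε / 4 < Far f.h (D / 2) x t} := ⟨_, rfl⟩
  refine ⟨toMeasurable volume E, measurableSet_toMeasurable _ _, ?_, fun t ht htE => ?_⟩
  · rw [measure_toMeasurable, hE]
    refine (measure_union_le _ _).trans ?_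
    have h4 : volume (St K 0 x J \ St K (2 * D) x J) ≤ ENNReal.ofReal (η / 2 * x) := by
      have hsub : St K (2 * D) x J ⊆ St K 0 x J := by
        unfold St
        refine iUnion₂_mono fun j _ => Icc_subset_Icc ?_ ?_
        · rw [zero_div, add_zero]
          have : 0 ≤ 2 * D / Real.log x := by positivity
          linarith
        · rw [zero_div, sub_zero]
          have : 0 ≤ 2 * D / Real.log x := by positivity
          linarith
      have hv0 := St_vol (K := K) (D := 0) hx le_rfl (by linarith) J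
      have hv1 := St_vol (K := K) (D := 2 * D) hx (by linarith) (by linarith) J
      rw [measure_sdiff hsub (St_meas K (2 * D) x J).nullMeasurableSet (by rw [hv1]; exact ENNReal.ofReal_ne_top),
        hv0, hv1, ← ENNReal.ofReal_sub _ (mul_nonneg (Nat.cast_nonneg _) (div_nonneg (by linarith) hL.le))]
      refine ENNReal.ofReal_le_ofReal ?_
      have h5 := InW_card hx hK0 hJ
      have h6 : (J.card : ℝ) * ((K - 2 * 0) / Real.log x) - (J.card : ℝ) * ((K - 2 * (2 * D)) / Real.log x) =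
          (J.card : ℝ) * (K / Real.log x) * (4 * D / K) := by
        field_simp
        ring
      rw [h6]
      have h7 : 4 * D / K ≤ 2 * η := by
        rw [div_le_iff₀ hK0]
        have h8 : 2 * D / η ≤ K := by linarith
        rw [div_le_iff₀ hη] at h8
        linarith
      calc (J.card : ℝ) * (K / Real.log x) * (4 * D / K) ≤ x / 4 * (2 * η) := by
            apply mul_le_mul h5 h7 (by positivity) (by positivity)
        _ = η / 2 * x := by ring
    refine (add_le_add h4 h1).trans (le_of_eq ?_)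
    rw [← ENNReal.ofReal_add (by positivity) (by positivity)]
    congr 1
    ring
  · have htE' : t ∉ E := fun h => htE (subset_toMeasurable _ _ h)
    rw [hE, mem_union, not_or] at htE'
    obtain ⟨hA, hB⟩ := htE'
    have hFt : Far f.h (D / 2) x t ≤ ε / 4 := not_lt.1 hB
    have hZc : Zc f.h K D x J t = ∑ ρ ∈ IS K D x J, mx ρ * kzs f.h 2 x t ρ := by
      unfold Zc
      exact Finset.sum_congr rfl fun ρ hρ => kzs_eq99 hc f (IS_notclose99 hx hD0.le hcl hρ) t
    have hISsub : IS K D x J ⊆ Pool.Agent.Helper69.SM.ZJ x x := by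
      unfold IS
      exact Finset.filter_subset _ _
    by_cases ht0 : t ∈ St K 0 x J
    · rw [indicator_of_mem ht0]
      have ht2 : t ∈ St K (2 * D) x J := by
        by_contra h
        exact hA ⟨ht0, h⟩
      unfold St at ht2
      rw [mem_iUnion₂] at ht2
      obtain ⟨j, hj, h4, h5⟩ := ht2
      have h6 : |∑ ρ ∈ Pool.Agent.Helper69.SM.ZJ x x \ IS K D x J, mx ρ * kzs f.h 2 x t ρ| ≤ Far f.h (D / 2) x t := by
        refine far_le99 f.h Finset.sdiff_subset fun ρ hρ => ?_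
        obtain ⟨h7, h8⟩ := Finset.mem_sdiff.mp hρ
        by_contra hcon
        rw [not_lt] at hcon
        apply h8
        unfold IS
        rw [Finset.mem_filter]
        refine ⟨h7, ?_⟩
        unfold St
        rw [mem_iUnion₂]
        have h9 : |t - (ρ : ℂ).im| ≤ D / Real.log x / 2 := by
          rw [div_div, mul_comm (Real.log x) 2, ← div_div, le_div_iff₀ hL]
          exact hcon
        have h10 := abs_le.mp h9
        have h11 : 2 * D / Real.log x = 2 * (D / Real.log x) := by ring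
        rw [h11] at h4 h5
        exact ⟨j, hj, by linarith [h10.1, h10.2], by linarith [h10.1, h10.2]⟩
      have h7 := Finset.sum_sdiff (f := fun ρ : ZS => mx ρ * kzs f.h 2 x t ρ) hISsub
      have h8 := h2 t ht
      have h9 := h3 t ⟨by linarith [ht.1], by linarith [ht.2]⟩
      rw [hZc]
      have a1 := abs_le.mp (h6.trans hFt)
      have a2 := abs_le.mp h8
      have a3 := abs_le.mp h9
      rw [abs_le]
      constructor <;> linarith [a1.1, a1.2, a2.1, a2.2, a3.1, a3.2]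
    · rw [indicator_of_notMem ht0, sub_zero, hZc]
      refine (far_le99 f.h (D := D / 2) hISsub fun ρ hρ => ?_).trans (by linarith)
      unfold IS at hρ
      rw [Finset.mem_filter] at hρ
      obtain ⟨_, h4⟩ := hρ
      unfold St at h4 ht0
      rw [mem_iUnion₂] at h4 ht0
      obtain ⟨j, hj, h5, h6⟩ := h4
      have h7 : D / Real.log x < |t - (ρ : ℂ).im| := by
        by_contra hcon
        rw [not_lt] at hcon
        have h8 := abs_le.mp hcon
        apply ht0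
        refine ⟨j, hj, ?_, ?_⟩
        · rw [zero_div, add_zero]
          linarith [h8.1, h8.2]
        · rw [zero_div, sub_zero]
          linarith [h8.1, h8.2]
      rw [div_lt_iff₀ hL] at h7
      linarith

end Pool.Agent.Helper99.ES
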